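import Mathlib
import Pool.Agent.Lead.Bal1

namespace Pool.Agent.Results.MP_33fb9b_co.BelowBeta

open Pool.Agent.Lead.Bal

/-- Linear extensions of a finite poset: order-preserving bijections onto `0, …, n-1`. -/
def LinExt (P : Type) [Fintype P] [PartialOrder P] : Type :=
  {f : P ≃ Fin (Fintype.card P) // ∀ x y, x ≤ y → f x ≤ f y}

/-- Probability that `x` comes before `y` in a uniformly random linear extension. -/
noncomputable def probBefore {P : Type} [Fintype P] [PartialOrder P] (x y : P) : ℝ :=
  (Nat.card {f : LinExt P // f.1 x < f.1 y} : ℝ) / (Nat.card (LinExt P) : ℝ)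

/-- The balance constant. -/
noncomputable def balance (P : Type) [Fintype P] [PartialOrder P] : ℝ :=
  ⨆ p : P × P, min (probBefore p.1 p.2) (probBefore p.2 p.1)

/-- `P` is isomorphic to a direct sum of `k ≥ 1` blocks; block `i` is the three-element poset with
the one relation `0 ≤ 1` if `t i`, and a point otherwise. -/
def InD (P : Type) [PartialOrder P] : Prop :=
  ∃ (k : ℕ) (t : Fin k → Bool) (e : P ≃ (Σ i : Fin k, Fin (if t i then 3 else 1))), 1 ≤ k ∧
    ∀ x y : P, x ≤ y ↔ ((e x).1 < (e y).1 ∨ e x = e y ∨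
      ((e x).1 = (e y).1 ∧ ((e x).2 : ℕ) = 0 ∧ ((e y).2 : ℕ) = 1))

theorem total : Nat.card (LinExt Q) = 1583915616 := by
  have h : c 41 41 20 21 = 1583915616 :=
    Nat.eq_of_beq_eq_true (chk_sound 41 41 (fun v => Nat.beq v 1583915616) total_chk)
  rw [← h, ← count_eq]
  refine Nat.card_congr (Equiv.subtypeEquivRight fun f => ?_)
  refine forall_congr' fun a => forall_congr' fun b => ?_
  have := val_lt a
  have e : R 41 41 a b ↔ a ≤ b := by
    simp only [R]
    constructor
    · rintro (h | h)
      · exact h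
      · omega
    · exact Or.inl
  rw [e]

theorem before_eq (x y : Q) (hxy : x ≠ y) :
    Nat.card {f : LinExt Q // f.1 x < f.1 y} = c (val x) (val y) 20 21 := by
  rw [← count_eq]
  refine Nat.card_congr ⟨fun f => ⟨f.1.1, ?_⟩, fun f => ⟨⟨f.1, fun a b h => f.2 a b (Or.inl h)⟩, ?_⟩,
    fun f => rfl, fun f => rfl⟩
  · rintro a b (h | ⟨h1, h2⟩)
    · exact f.1.2 a b h
    · rw [val_inj h1, val_inj h2]; exact f.2.le
  · exact lt_of_le_of_ne (f.2 x y (Or.inr ⟨rfl, rfl⟩)) (fun h => hxy (f.1.injective h))

theorem prob_zero (x y : Q) (h : y ≤ x) : probBefore x y = 0 := by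
  have : IsEmpty {f : LinExt Q // f.1 x < f.1 y} :=
    ⟨fun f => absurd f.2 (not_lt.mpr (f.1.2 _ _ h))⟩
  simp [probBefore]

theorem prob_le (x y : Q) (hxy : x ≠ y) (h : chk (val x) (val y) (fun v => Nat.ble v 552536892) = true) :
    probBefore x y ≤ 15348247 / 43997656 := by
  have h1 : c (val x) (val y) 20 21 ≤ 552536892 := Nat.le_of_ble_eq_true (chk_sound _ _ _ h)
  rw [probBefore, total, before_eq x y hxy]
  have : (c (val x) (val y) 20 21 : ℝ) ≤ 552536892 := by exact_mod_cast h1
  rw [div_le_div_iff₀ (by norm_num) (by norm_num)]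
  push_cast
  linarith

theorem prob_ge (x y : Q) (hxy : x ≠ y) (h : chk (val x) (val y) (fun v => Nat.ble 552536892 v) = true) :
    15348247 / 43997656 ≤ probBefore x y := by
  have h1 : 552536892 ≤ c (val x) (val y) 20 21 := Nat.le_of_ble_eq_true (chk_sound _ _ _ h)
  rw [probBefore, total, before_eq x y hxy]
  have : (552536892 : ℝ) ≤ c (val x) (val y) 20 21 := by exact_mod_cast h1
  rw [div_le_div_iff₀ (by norm_num) (by norm_num)]
  push_cast
  linarith

theorem min_le_aux (x y : Q) (h : val y < val x) :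
    min (probBefore x y) (probBefore y x) ≤ 15348247 / 43997656 := by
  have hxy : x ≠ y := fun e => by rw [e] at h; exact lt_irrefl _ h
  have := (allB_iff _ _).mp (pair_chk _ (val_lt x)) _ h
  simp only [Bool.or_eq_true] at this
  rcases this with ((h1 | h1) | h1) | h1
  · exact min_le_of_left_le (by rw [prob_zero x y h1]; norm_num)
  · exact min_le_of_right_le (by rw [prob_zero y x h1]; norm_num)
  · exact min_le_of_left_le (prob_le x y hxy h1)
  · exact min_le_of_right_le (prob_le y x hxy.symm h1)

theorem balance_eq : balance Q = 15348247 / 43997656 := by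
  have hb : ∀ p : Q × Q, min (probBefore p.1 p.2) (probBefore p.2 p.1) ≤ 15348247 / 43997656 := by
    rintro ⟨x, y⟩
    rcases lt_trichotomy (val x) (val y) with h | h | h
    · rw [min_comm]; exact min_le_aux y x h
    · have : x = y := val_inj h
      subst this
      exact min_le_of_left_le (by rw [prob_zero x x le_rfl]; norm_num)
    · exact min_le_aux x y h
  let a : Q := (⟨0, by norm_num⟩ : Fin 41)
  let b : Q := (⟨20, by norm_num⟩ : Fin 41)
  have hab : a ≠ b := fun h => by
    have : (0 : ℕ) = 20 := congrArg val h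
    omega
  have : Nonempty (Q × Q) := ⟨(a, b)⟩
  refine le_antisymm (ciSup_le hb) (le_ciSup_of_le ⟨_, by rintro _ ⟨p, rfl⟩; exact hb p⟩ (a, b) ?_)
  exact le_min (prob_ge a b hab top_chk.1) (prob_ge b a hab.symm top_chk.2)

theorem not_inD : ¬ InD Q := by
  rintro ⟨k, t, e, -, he⟩
  let a : Q := (⟨0, by norm_num⟩ : Fin 41)
  let b : Fin 4 → Q := fun i => (⟨![0, 20, 21, 22] i, by fin_cases i <;> simp⟩ : Fin 41)
  have hinc : ∀ i, (e (b i)).1 = (e a).1 := by
    intro i
    by_contra hne
    have h1 : b i ≤ a ∨ a ≤ b i := by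
      rcases lt_or_gt_of_ne hne with h | h
      · exact Or.inl ((he _ _).mpr (Or.inl h))
      · exact Or.inr ((he _ _).mpr (Or.inl h))
    have h0 : i ≠ 0 := fun h => hne (by rw [h]; rfl)
    revert h1 h0
    rw [le_def, le_def]
    fin_cases i <;> simp [a, b, val] <;> decide +kernel
  have hb : Function.Injective b := by
    intro i j h
    have : val (b i) = val (b j) := congrArg val h
    revert this
    fin_cases i <;> fin_cases j <;> simp [b, val]
  have hlt : ∀ i, ((e (b i)).2 : ℕ) < 3 := fun i => by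
    have := (e (b i)).2.isLt
    split_ifs at this <;> omega
  let g : Fin 4 → Fin 3 := fun i => ⟨(e (b i)).2, hlt i⟩
  have hg : Function.Injective g := by
    intro i j h
    apply hb
    apply e.injective
    have h1 : (e (b i)).1 = (e (b j)).1 := (hinc i).trans (hinc j).symm
    have h2 : ((e (b i)).2 : ℕ) = (e (b j)).2 := congrArg Fin.val h
    generalize e (b i) = u at h1 h2
    generalize e (b j) = v at h1 h2
    obtain ⟨u1, u2⟩ := u
    obtain ⟨v1, v2⟩ := v
    dsimp only at h1 h2
    subst h1
    rw [Fin.ext h2]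
  have := Fintype.card_le_of_injective g hg
  simp at this

theorem result : ∃ (P : Type) (_ : Fintype P) (_ : PartialOrder P),
    Fintype.card P = 41 ∧ ¬ InD P ∧ balance P = 15348247 / 43997656 ∧
      balance P < (5864893 + 27 * √57) / 16812976 := by
  refine ⟨Q, inferInstance, inferInstance, card_Q, not_inD, balance_eq, ?_⟩
  rw [balance_eq]
  have : (7 : ℝ) < √57 := Real.lt_sqrt_of_sq_lt (by norm_num)
  rw [div_lt_div_iff₀ (by norm_num) (by norm_num)]
  linarith

end Pool.Agent.Results.MP_33fb9b_co.BelowBeta
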